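import Pool.Agent.W93.GB4
import Pool.Agent.V7H38.TS.Spec

/-! Piece GOLD of project TS. -/

set_option autoImplicit false

namespace Pool.Agent.V7H66.TS

open Finset Pool.Agent.V7H38.TS

lemma one_le_sing (n : ℕ) : 1 ≤ Pool.Agent.H560R3.GB.sing n := by
  rw [Pool.Agent.W93.GB.sing_eq]
  have h1 := Pool.Agent.W93.GB.C2_half
  have h2 := Pool.Agent.W93.GB.one_le_prod_dv (n.primeFactors.filter (fun p => 2 < p))
    (fun p hp => (mem_filter.1 hp).2)
  nlinarith

lemma reps_card (a : ℕ) : (reps a).card = Pool.Agent.H560R3.GB.g a := by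
  unfold reps Pool.Agent.H560R3.GB.g
  rw [Finset.Nat.antidiagonal_eq_map, Finset.filter_map, Finset.card_map]
  rfl

lemma energy_le (x : ℕ) : Pool.Agent.H560R3.GB.energy 1 x (fun m => 2 * m) ≤ x := by
  unfold Pool.Agent.H560R3.GB.energy
  have h : ((((Fintype.piFinset fun _ : Fin 1 => Icc 1 x) ×ˢ
      (Fintype.piFinset fun _ : Fin 1 => Icc 1 x)).filter
      (fun q => ∑ i, 2 * (q.1 i) = ∑ i, 2 * (q.2 i))).card) ≤ (Icc 1 x).card := by
    apply Finset.card_le_card_of_injOn (fun q => q.1 0)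
    · intro q hq
      rw [mem_coe, mem_filter, mem_product] at hq
      have := (Fintype.mem_piFinset.1 hq.1.1) 0
      simpa using this
    · intro q hq q' hq' h
      rw [mem_coe, mem_filter] at hq hq'
      have e1 := hq.2
      have e2 := hq'.2
      rw [Fin.sum_univ_one, Fin.sum_univ_one] at e1 e2
      simp only at h
      apply Prod.ext
      · ext j
        rw [Fin.eq_zero j]
        exact h
      · ext j
        rw [Fin.eq_zero j]
        omega
  simpa using h

theorem t_GOLD : S_GOLD := by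
  classical
  intro U
  obtain ⟨N₀, hN₀⟩ := Pool.Agent.W93.GB.fam 1 3 0 (U + 1) le_rfl (1 / 2) (by norm_num)
  refine ⟨N₀ + 30, fun X hX T hT hrep => ?_⟩
  have hX30 : 30 ≤ X := by omega
  have hXr : (30 : ℝ) ≤ X := by exact_mod_cast hX30
  have hX0 : (0 : ℝ) < X := by linarith
  have hfam := hN₀ (3 * X) (by omega) (3 * X) (fun m => 2 * m) (fun m hm => by
    rw [mem_Icc] at hm
    exact ⟨by omega, Dvd.intro _ rfl⟩) (by
    have h1 := energy_le (3 * X)
    have h2 : (Pool.Agent.H560R3.GB.energy 1 (3 * X) (fun m => 2 * m) : ℝ) ≤ ((3 * X : ℕ) : ℝ) := by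
      exact_mod_cast h1
    rw [pow_zero, one_mul, mul_one, sq]
    exact mul_le_mul_of_nonneg_right h2 (Nat.cast_nonneg _))
  -- the logarithms
  have hl1 : Real.log X ≤ Real.log ((3 * X : ℕ) : ℝ) := by
    apply Real.log_le_log hX0
    push_cast
    linarith
  have hl3 : (3 : ℝ) ≤ Real.log X := by
    rw [Real.le_log_iff_exp_le hX0]
    have h1 : Real.exp 3 = Real.exp 1 ^ 3 := by rw [← Real.exp_nat_mul]; norm_num
    rw [h1]
    have h2 := Real.exp_one_lt_d9
    have h3 : Real.exp 1 ^ 3 ≤ 2.72 ^ 3 := by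
      apply pow_le_pow_left₀ (Real.exp_pos 1).le
      linarith
    have : (2.72 : ℝ) ^ 3 ≤ 30 := by norm_num
    linarith
  have hl2 : Real.log ((3 * X : ℕ) : ℝ) ≤ 2 * Real.log X := by
    have h1 : ((3 * X : ℕ) : ℝ) ≤ (X : ℝ) ^ 2 := by
      push_cast
      nlinarith
    have h2 := Real.log_le_log (by push_cast; linarith) h1
    rw [Real.log_pow] at h2
    exact_mod_cast h2
  have hgood : ∀ a ∈ T, ¬ Pool.Agent.W93.GB.Good (1 / 2) a := by
    intro a ha hg
    obtain ⟨hev, hlt⟩ := hrep a ha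
    have haT := mem_Icc.1 (hT ha)
    have haX : (X : ℝ) ≤ a := by exact_mod_cast haT.1
    have ha3 : (a : ℝ) ≤ ((3 * X : ℕ) : ℝ) := by exact_mod_cast haT.2
    have hla : Real.log a ≤ Real.log ((3 * X : ℕ) : ℝ) := Real.log_le_log (by linarith) ha3
    have hla0 : 0 < Real.log a := Real.log_pos (by linarith)
    have hs := one_le_sing a
    have h1 := (abs_le.1 hg.1).1
    have hHL : (X : ℝ) / (2 * Real.log X) ^ 2 ≤ Pool.Agent.H560R3.GB.HL a := by
      unfold Pool.Agent.H560R3.GB.HL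
      have e1 : (X : ℝ) / (2 * Real.log X) ^ 2 ≤ (a : ℝ) / Real.log a ^ 2 := by
        apply div_le_div₀ (by linarith) haX (by positivity)
        apply pow_le_pow_left₀ hla0.le
        linarith
      have e2 : 0 ≤ (a : ℝ) / Real.log a ^ 2 := by positivity
      calc (X : ℝ) / (2 * Real.log X) ^ 2 ≤ 1 * ((a : ℝ) / Real.log a ^ 2) := by linarith
        _ ≤ _ := mul_le_mul_of_nonneg_right hs e2
    rw [reps_card] at hlt
    have e3 : (X : ℝ) / (8 * Real.log X ^ 2) = 1 / 2 * ((X : ℝ) / (2 * Real.log X) ^ 2) := by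
      have : Real.log X ≠ 0 := by linarith
      field_simp
      ring
    rw [e3] at hlt
    linarith
  -- the set S
  have hcard : T.card = ((Icc 1 (3 * X)).filter (fun m => 2 * m ∈ T)).card := by
    symm
    apply Finset.card_bij (fun m _ => 2 * m)
    · intro m hm
      exact (mem_filter.1 hm).2
    · intro m _ m' _ h
      omega
    · intro a ha
      obtain ⟨hev, _⟩ := hrep a ha
      obtain ⟨j, hj⟩ := hev
      have haT := mem_Icc.1 (hT ha)
      refine ⟨j, ?_, by omega⟩
      rw [mem_filter, mem_Icc]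
      refine ⟨⟨by omega, by omega⟩, ?_⟩
      have : 2 * j = a := by omega
      rw [this]
      exact ha
  have h2 := hfam ((Icc 1 (3 * X)).filter (fun m => 2 * m ∈ T)) (filter_subset _ _)
    (fun m hm => hgood _ (mem_filter.1 hm).2)
  rw [hcard]
  refine h2.trans ?_
  have hl0 : 0 < Real.log X := by linarith
  have hl0' : 0 < Real.log ((3 * X : ℕ) : ℝ) := by linarith
  rw [div_le_div_iff₀ (by positivity) (by positivity)]
  have e4 : Real.log X ^ U ≤ Real.log ((3 * X : ℕ) : ℝ) ^ U := pow_le_pow_left₀ hl0.le hl1 U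
  rw [pow_succ]
  calc ((3 * X : ℕ) : ℝ) * Real.log X ^ U = X * (Real.log X ^ U * 3) := by push_cast; ring
    _ ≤ X * (Real.log ((3 * X : ℕ) : ℝ) ^ U * Real.log ((3 * X : ℕ) : ℝ)) := by
        apply mul_le_mul_of_nonneg_left _ hX0.le
        apply mul_le_mul e4 (by linarith) (by norm_num) (by positivity)

end Pool.Agent.V7H66.TS
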